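import Pool.Agent.Porous.LimMod

open Porous Filter Topology
open scoped ENNReal

namespace Pool.Agent.Results.MP_ebc928_an.ZeroBulkMaxShear

/-- For the incompressible phase (`κ = ⊤`) the largest effective shear modulus at zero effective bulk modulus is `μ`, not
`4μ/5`: for the closure of the moduli of exactly isotropic composites with any period lattice, and also for the moduli of
isotropic limits of composites with a prescribed period lattice `b`, in particular `ℤ²` (`b = Complex.basisOneI`). -/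
theorem result : ∀ μ : ℝ, 0 < μ →
    4 * μ / 5 < μ ∧
    (IsGreatest {m : ℝ | ((0 : ℝ), m) ∈ closure (IsoModuli ⊤ μ)} μ ∧
      sSup {m : ℝ | ((0 : ℝ), m) ∈ closure (IsoModuli ⊤ μ)} = μ) ∧
    (IsGreatest {m : ℝ | ((0 : ℝ), m) ∈ closure (LimModuli Complex.basisOneI ⊤ μ)} μ ∧
      sSup {m : ℝ | ((0 : ℝ), m) ∈ closure (LimModuli Complex.basisOneI ⊤ μ)} = μ) ∧
    ∀ b : Module.Basis (Fin 2) ℝ ℂ, ((0 : ℝ), μ) ∈ LimModuli b ⊤ μ := by
  intro μ hμ
  have h1 := isGreatest_Iso ⊤ (by simp) μ hμ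
  have h2 := isGreatest_Lim Complex.basisOneI ⊤ (by simp) μ hμ
  exact ⟨by linarith, ⟨h1, h1.csSup_eq⟩, ⟨h2, h2.csSup_eq⟩, fun b => LimModuli_mem b ⊤ (by simp) μ hμ⟩

end Pool.Agent.Results.MP_ebc928_an.ZeroBulkMaxShear
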